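import Mathlib
import Pool.Agent.H15.G.R_seed8.Y55.Col.Space
import Pool.Agent.H15.G.R_seed8.TH442.NF.Exc
import Pool.Agent.H15.G.R_seed8.TH442.NF.Std
import Pool.Agent.H15.G.R_seed8.H932R3.Finals

set_option autoImplicit false

/-!
# Generic dimensions and the predicates for collisions
-/

namespace Pool.Agent.V11310.CL

open MvPolynomial Pool.Agent.W609 Pool.Agent.W609.CR Pool.Agent.TH167 Pool.Agent.TH167.SH
  Pool.Agent.H932R3 Pool.Agent.TH442.NF

/-- Generic points have the expected dimension. -/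
def GE (d : ℕ) {n : ℕ} (w : Fin n → ℕ) : Prop :=
  ∀ {K : Type} [Field K] [CharZero K] {P : Fin n → Fin 2 → K},
    AlgebraicIndependent ℚ (fun ij : Fin n × Fin 2 => P ij.1 ij.2) → ExpDim K w P d

/-- The multiset of the values. -/
def ms {n : ℕ} (w : Fin n → ℕ) : Multiset ℕ := (Finset.univ : Finset (Fin n)).val.map w

theorem vs_forms {n : ℕ} (v : Fin n → Fin 3 → ℂ) (w : Fin n → ℕ) (d : ℕ) :
    VS v w d = Pool.Agent.H938R2.forms 3 d w v := by
  ext f
  rw [mem_VS, Pool.Agent.H938R2.mem_forms]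
  refine and_congr_right fun _ => forall_congr' fun i => ?_
  unfold Van
  rw [mem_ker_pow_iff (n := 2)]
  rfl

theorem aff_zero_ne {P : Fin 2 → ℂ} (h : P 0 ≠ 0) : aff P 0 ≠ 0 := h

/-- Particular points with the expected dimension and nonzero first coordinates. -/
theorem exists_point {n d : ℕ} {w : Fin n → ℕ} (h : GE d w) :
    ∃ P : Fin n → Fin 2 → ℂ, (∀ i, P i 0 ≠ 0) ∧ ExpDim ℂ w P d := by
  obtain ⟨F, hF, hF'⟩ := to_open (d := d) (w := w) fun {K} _ _ P hP => h hP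
  have h1 : F.map (algebraMap ℚ ℂ) * ∏ i : Fin n, X (i, (0 : Fin 2)) ≠ 0 :=
    mul_ne_zero (map_ne_zero_of hF) (Finset.prod_ne_zero_iff.2 fun i _ => X_ne_zero _)
  obtain ⟨x, hx⟩ := Pool.Agent.H938R2.exists_eval_ne_zero h1
  rw [map_mul, map_prod] at hx
  refine ⟨fun i j => x (i, j), fun i h0 => ?_, hF' (L := ℂ) _ ?_⟩
  · apply right_ne_zero_of_mul hx
    apply Finset.prod_eq_zero (Finset.mem_univ i)
    rw [eval_X]
    exact h0
  · have h2 := left_ne_zero_of_mul hx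
    rw [eval_map] at h2
    exact h2

theorem expDim_forms {n d : ℕ} {w : Fin n → ℕ} {P : Fin n → Fin 2 → ℂ} :
    ExpDim ℂ w P d ↔ Module.finrank ℂ (Pool.Agent.H938R2.forms 3 d w (fun j => aff (P j))) =
      (d + 2).choose 2 - ∑ i, (w i + 1).choose 2 := by
  rw [← vs_forms, ← sys_eq]
  exact Iff.rfl

theorem emp_of_ge {n d : ℕ} {w : Fin n → ℕ} (h : GE d w)
    (hχ : (d + 2).choose 2 ≤ ∑ i, (w i + 1).choose 2) : Y55.Col.Emp 2 (d + 1) (ms w) := by
  obtain ⟨P, h0, hP⟩ := exists_point h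
  rw [expDim_forms, Nat.sub_eq_zero_of_le hχ] at hP
  exact Y55.Col.emp_of_point (n := 1) w (fun j => aff (P j)) (fun i => h0 i)
    ((Y55.Col.finrank_zero_iff _ _).1 hP)

theorem ind_of_ge {n d : ℕ} {w : Fin n → ℕ} (h : GE d w)
    (hχ : ∑ i, (w i + 1).choose 2 ≤ (d + 2).choose 2) : Y55.Col.Ind 1 (d + 1) (ms w) := by
  obtain ⟨P, h0, hP⟩ := exists_point h
  rw [expDim_forms] at hP
  refine Y55.Col.ind_of_point (n := 1) w (fun j => aff (P j)) (fun i => h0 i) ?_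
  show Module.finrank ℂ (Pool.Agent.H938R2.forms 3 d w (fun j => aff (P j))) +
    ∑ i, (w i + 1).choose 2 = (d + 2).choose 2
  rw [hP]
  omega

/-- Semicontinuity. -/
theorem gen_le {n d N : ℕ} {w : Fin n → ℕ} {p : Fin n → Fin 3 → ℂ} (hp : ∀ i, p i 2 ≠ 0)
    (h : Module.finrank ℂ (Pool.Agent.H938R2.forms 3 d w p) ≤ N) {K : Type} [Field K] [CharZero K]
    {P : Fin n → Fin 2 → K} (hP : AlgebraicIndependent ℚ (fun ij : Fin n × Fin 2 => P ij.1 ij.2)) :
    Module.finrank K ↥(VS (fun j => aff (P j)) w d) ≤ N := by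
  classical
  obtain ⟨P0, hP0⟩ : ∃ P0 : Fin n → Fin 2 → ℂ, P0 = fun i => ![p i 0 / p i 2, p i 1 / p i 2] :=
    ⟨_, rfl⟩
  have hsc : ∀ i, p i = p i 2 • aff (P0 i) := by
    intro i
    have h2 := hp i
    funext l
    rw [hP0]
    fin_cases l
    · simp [aff, mul_div_cancel₀ _ h2]
    · simp [aff, mul_div_cancel₀ _ h2]
    · simp [aff]
  have hle : Pool.Agent.H938R2.forms 3 d w (fun j => aff (P0 j)) ≤
      Pool.Agent.H938R2.forms 3 d w p := by
    rintro F ⟨hF1, hF2⟩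
    refine ⟨hF1, fun i => ?_⟩
    rw [hsc i]
    exact Y55.Col.vanishes_smul (aff_ne _) (hp i) hF1 (hF2 i)
  have hfin : Module.Finite ℂ (Pool.Agent.H938R2.forms 3 d w p) := by
    rw [← vs_forms]
    exact vs_fin _ _ _
  have h0 : Module.finrank ℂ ↥(VS (fun j => aff (P0 j)) w d) ≤ N := by
    rw [vs_forms]
    exact (Submodule.finrank_mono hle).trans h
  -- the rank
  obtain ⟨g, F, hF, hF'⟩ := dim_gen w d
  obtain ⟨A, hA⟩ : ∃ A : Matrix (Σ j : Fin n, {b // b ∈ Lo (w j)}) {a // a ∈ Ex d}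
      (MvPolynomial (Fin n × Fin 2) ℂ), A = (cmat w d).map (MvPolynomial.map (algebraMap ℚ ℂ)) :=
    ⟨_, rfl⟩
  have hmat : ∀ Q : Fin n → Fin 2 → ℂ, A.map (eval fun ij : Fin n × Fin 2 => Q ij.1 ij.2) =
      (cmat w d).map (MvPolynomial.aeval (fun ij : Fin n × Fin 2 => Q ij.1 ij.2)).toRingHom := by
    intro Q
    rw [hA]
    ext a b
    simp only [Matrix.map_apply]
    rw [eval_map]
    rfl
  have hker : ∀ Q : Fin n → Fin 2 → ℂ, Module.finrank ℂ
      (LinearMap.ker (A.map (eval fun ij : Fin n × Fin 2 => Q ij.1 ij.2)).mulVecLin) =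
      Module.finrank ℂ ↥(VS (fun j => aff (Q j)) w d) := by
    intro Q
    rw [hmat]
    have h1 := vs_rank Q w d
    have h2 := LinearMap.finrank_range_add_finrank_ker
      ((cmat w d).map (MvPolynomial.aeval (fun ij : Fin n × Fin 2 => Q ij.1 ij.2)).toRingHom).mulVecLin
    rw [Module.finrank_fintype_fun_eq_card, Fintype.card_coe] at h2
    have h3 : ((cmat w d).map
        (MvPolynomial.aeval (fun ij : Fin n × Fin 2 => Q ij.1 ij.2)).toRingHom).rank =
      Module.finrank ℂ (LinearMap.range ((cmat w d).map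
        (MvPolynomial.aeval (fun ij : Fin n × Fin 2 => Q ij.1 ij.2)).toRingHom).mulVecLin) := rfl
    omega
  obtain ⟨D, hD, hD'⟩ := Pool.Agent.H938R2.generic_finrank_ker A
    (fun ij : Fin n × Fin 2 => P0 ij.1 ij.2) N (by rw [hker]; exact h0)
  have hD0 : D ≠ 0 := fun h => hD (by rw [h, map_zero])
  obtain ⟨x, hx⟩ := Pool.Agent.H938R2.exists_eval_ne_zero
    (mul_ne_zero hD0 (map_ne_zero_of (L := ℂ) hF))
  rw [map_mul] at hx
  have h1 := hD' x (left_ne_zero_of_mul hx)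
  have h2 : Module.finrank ℂ ↥(VS (fun j => aff (fun l => x (j, l))) w d) = g := by
    refine hF' ℂ (fun j l => x (j, l)) ?_
    have h3 := right_ne_zero_of_mul hx
    rw [eval_map] at h3
    exact h3
  have h4 := hker (fun j l => x (j, l))
  have h5 : Module.finrank ℂ ↥(VS (fun j => aff (fun l => x (j, l))) w d) ≤ N := by
    rw [← h4]
    exact h1
  rw [hF' K P fun h0 => hF (hP.eq_zero_of_aeval_eq_zero F h0), ← h2]
  exact h5

lemma coord_general {n : ℕ} : Pool.Agent.H938R2.ForGeneral 3 n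
    (fun p => ∀ i, p i 0 ≠ 0 ∧ p i 1 ≠ 0 ∧ p i 2 ≠ 0) := by
  refine ⟨∏ i, (X (i, 0) * X (i, 1) * X (i, 2)), Finset.prod_ne_zero_iff.mpr fun i _ =>
    mul_ne_zero (mul_ne_zero (X_ne_zero _) (X_ne_zero _)) (X_ne_zero _), fun p hp i => ?_⟩
  rw [map_prod, Finset.prod_ne_zero_iff] at hp
  have h1 := hp i (Finset.mem_univ i)
  rw [map_mul, map_mul, eval_X, eval_X, eval_X] at h1
  exact ⟨left_ne_zero_of_mul (left_ne_zero_of_mul h1), right_ne_zero_of_mul (left_ne_zero_of_mul h1),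
    right_ne_zero_of_mul h1⟩

lemma chi_eq {n : ℕ} (d : ℕ) (w : Fin n → ℕ) :
    chi d w = ((d + 2).choose 2 : ℤ) - ((∑ i, (w i + 1).choose 2 : ℕ) : ℤ) := by
  unfold chi
  push_cast
  rfl

theorem ge_of_emp {n d : ℕ} {w : Fin n → ℕ} (h : Y55.Col.Emp 2 (d + 1) (ms w)) :
    GE d w ∧ (d + 2).choose 2 ≤ ∑ i, (w i + 1).choose 2 := by
  obtain ⟨p, hp1, hp2⟩ := ((Y55.Col.general_of_emp (n := 1) h).and coord_general).exists
  have h1 : Module.finrank ℂ (Pool.Agent.H938R2.forms 3 d w p) ≤ 0 := by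
    rw [hp1, finrank_bot]
  have h2 : (d + 2).choose 2 ≤ ∑ i, (w i + 1).choose 2 := by
    have h3 := Pool.Agent.H938R2.finrank_forms_ge 2 d w p (fun i h0 => (hp2 i).1 (by
      rw [h0]; rfl))
    have h4 : Module.finrank ℂ (Pool.Agent.H938R2.forms (2 + 1) d w p) = 0 := Nat.le_zero.1 h1
    rw [h4, zero_add] at h3
    exact h3
  refine ⟨fun {K} _ _ P hP => ?_, h2⟩
  rw [expDim_iff]
  have h5 := gen_le (fun i => (hp2 i).2.2) h1 hP
  rw [chi_eq]
  have h6 : Module.finrank K ↥(VS (fun j => aff (P j)) w d) = 0 := by omega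
  rw [h6, max_eq_left]
  · rfl
  · have h7 : (((d + 2).choose 2 : ℕ) : ℤ) ≤ ((∑ i, (w i + 1).choose 2 : ℕ) : ℤ) := by
      exact_mod_cast h2
    linarith

theorem ge_of_ind {n d : ℕ} {w : Fin n → ℕ} (h : Y55.Col.Ind 1 (d + 1) (ms w)) :
    GE d w ∧ ∑ i, (w i + 1).choose 2 ≤ (d + 2).choose 2 := by
  obtain ⟨p, hp1, hp2⟩ := ((Y55.Col.general_of_ind (n := 1) h).and coord_general).exists
  have hp1' : Module.finrank ℂ (Pool.Agent.H938R2.forms 3 d w p) + ∑ i, (w i + 1).choose 2 =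
    (d + 2).choose 2 := hp1
  refine ⟨fun {K} _ _ P hP => ?_, by omega⟩
  rw [expDim_iff]
  have h1 : Module.finrank ℂ (Pool.Agent.H938R2.forms 3 d w p) ≤
      (d + 2).choose 2 - ∑ i, (w i + 1).choose 2 := by omega
  have h5 := gen_le (fun i => (hp2 i).2.2) h1 hP
  have h6 := chi_le_dim P d w
  rw [chi_eq] at h6 ⊢
  have h8 : ∑ i, (w i + 1).choose 2 ≤ (d + 2).choose 2 := by omega
  zify [h8] at h5
  push_cast at h5 h6 ⊢
  rw [max_eq_right (by
    have h9 : ((∑ i, (w i + 1).choose 2 : ℕ) : ℤ) ≤ (((d + 2).choose 2 : ℕ) : ℤ) := by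
      exact_mod_cast h8
    push_cast at h9
    linarith)]
  linarith

/-- One quadratic transformation. -/
theorem ge_quad {n : ℕ} {d : ℕ} {w : Fin n → ℕ} {i : Fin 3 → Fin n} (hi : Function.Injective i)
    (p : PS i d w) (h : GE (cd i d w) (wcr d i w)) : GE d w := by
  intro K _ _ P hP
  obtain ⟨P2, hP2, hr⟩ := exists_crel hP hi
  have h1 := (expDim_iff _ _ _).1 (h hP2)
  rw [expDim_iff, ← hr.dim p, h1]
  congr 1
  have h1 := ip_cr hi p p
  have h2 := kk_cr hi p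
  have h3 := two_chi (cd i d w) (wcr d i w)
  rw [h1, h2, ← two_chi] at h3
  exact mul_left_cancel₀ two_ne_zero h3

theorem chi_quad {n : ℕ} {d : ℕ} {w : Fin n → ℕ} {i : Fin 3 → Fin n} (hi : Function.Injective i)
    (p : PS i d w) : chi (cd i d w) (wcr d i w) = chi d w := by
  have h1 := ip_cr hi p p
  have h2 := kk_cr hi p
  have h3 := two_chi (cd i d w) (wcr d i w)
  rw [h1, h2, ← two_chi] at h3
  exact mul_left_cancel₀ two_ne_zero h3

end Pool.Agent.V11310.CL
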