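import Pool.Agent.H15.G.R_pool_sql_team_seeded_843ab51a.V11310.CL.Bridge
import Pool.Agent.H15.G.R_seed8.TH763.DB.Main
import Pool.Agent.H15.G.R_seed8.TH868.NG.Van3
import Pool.Agent.H15.G.R_seed8.TH641.UM.Ones
import Pool.Agent.H15.G.R_seed8.TH387.SH.Tr

set_option autoImplicit false

/-!
# From polynomials to Laurent polynomials and back; doubling
-/

namespace Pool.Agent.V11310.CL

open MvPolynomial Finset Pool.Agent.H938R2
open Pool.Agent.TH603.Sur (TZ Sur cond)
open Pool.Agent.H932R3 (ExpDim)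

theorem nag_of_point {n d : ℕ} {w : Fin n → ℕ} {x : Fin n → Fin 2 → ℂ}
    (hx : ∀ i, x i 0 ≠ 0 ∧ x i 1 ≠ 0) (h : Y55.Col.AffBot (d + 1) w x) :
    TH176.Nag.Emp w (TZ d) := by
  refine ⟨ℂ, inferInstance, inferInstance, fun i => x i 0, fun i => x i 1, fun i => (hx i).1,
    fun i => (hx i).2, fun f hf hL => ?_⟩
  classical
  have hf' : ∀ m ∈ f.support, 0 ≤ m.1 ∧ 0 ≤ m.2 ∧ m.1 + m.2 ≤ (d : ℤ) :=
    fun m hm => hf (mem_coe.2 hm)
  obtain ⟨e, he⟩ : ∃ e : ℤ × ℤ → (Fin 2 →₀ ℕ),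
      e = fun m => Finsupp.single 0 m.1.toNat + Finsupp.single 1 m.2.toNat := ⟨_, rfl⟩
  have e0 : ∀ m, e m 0 = m.1.toNat := by intro m; simp [he]
  have e1 : ∀ m, e m 1 = m.2.toNat := by intro m; simp [he]
  obtain ⟨p, hp⟩ : ∃ p : MvPolynomial (Fin 2) ℂ, p = ∑ m ∈ f.support, monomial (e m) (f m) :=
    ⟨_, rfl⟩
  have hinj : ∀ m ∈ f.support, ∀ m' ∈ f.support, e m = e m' → m = m' := by
    intro m hm m' hm' h
    have h1 := DFunLike.congr_fun h 0
    have h2 := DFunLike.congr_fun h 1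
    rw [e0, e0] at h1
    rw [e1, e1] at h2
    obtain ⟨a1, a2, a3⟩ := hf' m hm
    obtain ⟨b1, b2, b3⟩ := hf' m' hm'
    exact Prod.ext (by omega) (by omega)
  have hcoef : ∀ m ∈ f.support, coeff (e m) p = f m := by
    intro m hm
    rw [hp, coeff_sum, Finset.sum_eq_single m]
    · rw [coeff_monomial, if_pos rfl]
    · intro m' hm' hne
      rw [coeff_monomial, if_neg (fun h => hne (hinj m' hm' m hm h))]
    · intro h
      exact absurd hm h
  have hp0 : p = 0 := by
    apply h p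
    · intro a ha
      have h1 : coeff a p ≠ 0 := mem_support_iff.1 ha
      rw [hp, coeff_sum] at h1
      obtain ⟨m, hm, hm2⟩ := Finset.exists_ne_zero_of_sum_ne_zero h1
      rw [coeff_monomial] at hm2
      have h2 : e m = a := by
        by_contra h3
        exact hm2 (if_neg h3)
      obtain ⟨a1, a2, a3⟩ := hf' m hm
      have h3 : a.degree = m.1.toNat + m.2.toNat := by
        rw [Finsupp.degree_eq_sum, Fin.sum_univ_two, ← h2, e0, e1]
      omega
    · intro i s hs
      have hs' : s 0 + s 1 < w i := by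
        rw [Finsupp.degree_eq_sum, Fin.sum_univ_two] at hs
        exact hs
      have h1 := TH868.NG.taylor_coeff_zero (hx i).1 (hx i).2 (f := f)
        (fun m hm => ⟨(hf' m hm).1, (hf' m hm).2.1⟩) (hL i) hs'
      rw [hp, map_sum, coeff_sum, ← h1]
      unfold Finsupp.sum
      refine Finset.sum_congr rfl fun m _ => ?_
      rw [coeff_taylor_monomial, Fin.prod_univ_two, e0, e1]
      ring
  ext m
  by_cases hm : m ∈ f.support
  · rw [← hcoef m hm, hp0, coeff_zero]
    rfl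
  · exact Finsupp.notMem_support_iff.1 hm

theorem nag_of_emp {n d : ℕ} {w : Fin n → ℕ} (h : Y55.Col.Emp 2 (d + 1) (ms w)) :
    TH176.Nag.Emp w (TZ d) := by
  obtain ⟨p, hp1, hp2⟩ := ((Y55.Col.general_of_emp (n := 1) h).and coord_general).exists
  refine nag_of_point (x := fun i (j : Fin 2) => (p i 0)⁻¹ * p i j.succ) (fun i => ⟨?_, ?_⟩)
    (Y55.Col.aff_of_forms w p (fun i => (hp2 i).1) hp1)
  · exact mul_ne_zero (inv_ne_zero (hp2 i).1) (hp2 i).2.1
  · exact mul_ne_zero (inv_ne_zero (hp2 i).1) (hp2 i).2.2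

theorem map_equiv {α : Type} {I J : Type} [Fintype I] [Fintype J] (e : I ≃ J) (f : J → α) :
    (univ : Finset I).val.map (fun i => f (e i)) = (univ : Finset J).val.map f := by
  rw [← Finset.map_univ_equiv e, Finset.map_val, Multiset.map_map]
  rfl

theorem nag_of_emp' {ι : Type} [Fintype ι] {w : ι → ℕ} {d : ℕ}
    (h : Y55.Col.Emp 2 (d + 1) ((univ : Finset ι).val.map w)) : TH176.Nag.Emp w (TZ d) := by
  have e := Fintype.equivFin ι
  have h1 := nag_of_emp (w := fun i => w (e.symm i)) (d := d) (by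
    unfold ms
    rw [map_equiv e.symm w]
    exact h)
  exact Pool.Agent.TH603.Sur.Emp_emb e.symm e.symm.injective (fun i => le_rfl) h1

theorem sum_multiset {ι : Type} [Fintype ι] {s : ℕ} (w : ι → ℕ) (c : ℕ) :
    (univ : Finset (ι ⊕ Fin s)).val.map (Sum.elim w (fun _ => c)) =
      (univ : Finset ι).val.map w + Multiset.replicate s c := by
  rw [← Finset.univ_disjSum_univ, Finset.val_disjSum, Multiset.disjSum, Multiset.map_add,
    Multiset.map_map, Multiset.map_map]
  have h4 : (Sum.elim w (fun _ : Fin s => c) ∘ Sum.inl : ι → ℕ) = w := rfl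
  have h5 : (Sum.elim w (fun _ : Fin s => c) ∘ Sum.inr : Fin s → ℕ) = fun _ => c := rfl
  rw [h4, h5, Multiset.map_const', Finset.card_val, Finset.card_univ, Fintype.card_fin]

theorem multiset_sum {κ ι : Type} [Fintype κ] [Fintype ι] (c : ℕ) (w : ι → ℕ) :
    (univ : Finset (κ ⊕ ι)).val.map (Sum.elim (fun _ => c) w) =
      Multiset.replicate (Fintype.card κ) c + (univ : Finset ι).val.map w := by
  rw [← Finset.univ_disjSum_univ, Finset.val_disjSum, Multiset.disjSum, Multiset.map_add,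
    Multiset.map_map, Multiset.map_map]
  have h4 : (Sum.elim (fun _ : κ => c) w ∘ Sum.inl : κ → ℕ) = fun _ => c := rfl
  have h5 : (Sum.elim (fun _ : κ => c) w ∘ Sum.inr : ι → ℕ) = w := rfl
  rw [h4, h5, Multiset.map_const', Finset.card_val, Finset.card_univ]

theorem sur_of_ind {ι : Type} [Fintype ι] {w : ι → ℕ} {d : ℕ}
    (h : Y55.Col.Ind 1 (d + 1) ((univ : Finset ι).val.map w)) : Sur w (TZ d) := by
  obtain ⟨s, h1, h2⟩ := h
  have h3 : TH176.Nag.Emp (Sum.elim w (fun _ : Fin s => 1)) (TZ d) := by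
    refine nag_of_emp' ?_
    rw [sum_multiset, add_comm (Multiset.map w _) (Multiset.replicate s 1)]
    exact h1
  refine Pool.Agent.TH641.UM.Sur_of_ones (p := s) h3 ?_
  rw [Multiset.map_map] at h2
  have h4 : ((univ : Finset ι).val.map (Y55.Col.cnt 1 ∘ w)).sum = cond w := rfl
  rw [h4] at h2
  have h5 : Y55.Col.cnt 1 (d + 1) = (d + 2).choose 2 := rfl
  rw [h5] at h2
  omega

theorem ge_of_nag {ι : Type} [Fintype ι] {w : ι → ℕ} {d : ℕ} (h : TH176.Nag.Emp w (TZ d)) {n : ℕ}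
    {v : Fin n → ℕ} (hv : ms v = (univ : Finset ι).val.map w) : GE d v := by
  obtain ⟨e, he⟩ := Y55.Col.transport v w hv
  have h1 : TH176.Nag.Emp v (TZ d) :=
    Pool.Agent.TH603.Sur.Emp_emb e.symm e.symm.injective (fun i => by
      rw [← he, Equiv.apply_symm_apply]) h
  obtain ⟨F, hF, hF'⟩ := Pool.Agent.TH603.Sur.full_open h1
  intro K _ _ P hP
  exact hF' P (fun h0 => hF (hP.eq_zero_of_aeval_eq_zero F h0)) d le_rfl

theorem ge_of_sur {ι : Type} [Fintype ι] {w : ι → ℕ} {d : ℕ} (h : Sur w (TZ d)) {n : ℕ}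
    {v : Fin n → ℕ} (hv : ms v = (univ : Finset ι).val.map w) : GE d v := by
  obtain ⟨e, he⟩ := Y55.Col.transport v w hv
  have hc : cond w = cond v := by
    unfold Pool.Agent.TH603.Sur.cond
    rw [← Equiv.sum_comp e]
    exact Finset.sum_congr rfl fun i _ => by rw [he]
  have h1 : Sur v (TZ d) := by
    obtain ⟨T, h1, h2, h3⟩ := h
    exact ⟨T, h1, h2.trans hc, Pool.Agent.TH603.Sur.Emp_emb e.symm e.symm.injective (fun i => by
      rw [← he, Equiv.apply_symm_apply]) h3⟩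
  obtain ⟨F, hF, hF'⟩ := Pool.Agent.TH603.Sur.indep_open h1
  intro K _ _ P hP
  exact hF' P (fun h0 => hF (hP.eq_zero_of_aeval_eq_zero F h0)) d le_rfl

/-- **Doubling.** -/
theorem ge_doubling {N m d : ℕ} {M : Multiset ℕ} (hN : 0 < N)
    (h1 : Y55.Col.Ind 1 (d + 1) (Multiset.replicate N (2 * m) + M))
    (h2 : Y55.Col.Emp 2 (d + 1) (Multiset.replicate N (2 * m + 1) + M)) {n : ℕ} {v : Fin n → ℕ}
    (hv : ms v = Multiset.replicate (4 * N) m + M) : GE d v := by
  obtain ⟨k, e, rfl⟩ := Y55.Col.exists_family M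
  have e1 : Fintype.card (Fin N × (Fin 2 × Fin 2)) = 4 * N := by
    simp only [Fintype.card_prod, Fintype.card_fin]
    omega
  have hS : Sur (Sum.elim (fun _ : Fin N => 2 * m) e) (TZ d) := by
    refine sur_of_ind ?_
    rw [multiset_sum, Fintype.card_fin]
    exact h1
  have hE : TH176.Nag.Emp (Sum.elim (fun _ : Fin N => 2 * m + 1) e) (TZ d) := by
    refine nag_of_emp' ?_
    rw [multiset_sum, Fintype.card_fin]
    exact h2
  have hD := Pool.Agent.TH763.DB.doubling (N := N) (m := m) (e := e) hN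
    (S := Pool.Agent.TH387.SH.TF d) (fun u hu => by
      have h1 : u ∈ TZ d := by rw [← Pool.Agent.TH387.SH.coe_TF]; exact mem_coe.2 hu
      exact ⟨h1.1, h1.2.1⟩)
    (by rw [Pool.Agent.TH387.SH.coe_TF]; exact hS) (by rw [Pool.Agent.TH387.SH.coe_TF]; exact hE)
  rw [Pool.Agent.TH387.SH.coe_TF] at hD
  have hv' : ms v = (univ : Finset ((Fin N × (Fin 2 × Fin 2)) ⊕ Fin k)).val.map
      (Sum.elim (fun _ : Fin N × (Fin 2 × Fin 2) => m) e) := by
    rw [multiset_sum, e1, hv]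
  rcases le_total (Pool.Agent.TH387.SH.TF d).card
    (Pool.Agent.TH603.Sur.cond (Sum.elim (fun _ : Fin N × (Fin 2 × Fin 2) => m) e)) with h | h
  · intro K _ _ P hP
    exact ge_of_nag (hD.1 h) hv' hP
  · intro K _ _ P hP
    exact ge_of_sur (hD.2 h) hv' hP

end Pool.Agent.V11310.CL
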